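import Pool.Agent.W2helper22.CW.Total
import Pool.Agent.W2helper26.CN.UP

/-!
# The clique function: circuits with few or few nested NOT gates, right on a window of edge numbers

The explicit function is the clique function: the input is a graph with `n` vertices, given by
`N = n.choose 2` bits, and the question is whether it has a clique of `k n` vertices (`NP`-complete,
for instance for `k n = ⌊n ^ (1 / 4)⌋`). The circuits are nonuniform randomised circuits (AND and OR
gates of fan-in two, NOT gates). `Nested C h t` says that at most `h` NOT gates lie on each path, with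
at most `t l` NOT gates of nesting level `l + 1`, for `l < h` (for `t l = 1` this just says that there
are at most `h` NOT gates, see 6.; for `h = 1` the NOT gates are not nested). A circuit has to be right
only for the graphs whose number of edges lies in a window of `W` consecutive numbers.

1. Let `1 ≤ W ≤ ∏ l, (t l + 1)`. There are circuits of polynomial size with the nesting structure
   `h`, `t` for each window of `W` numbers if and only if there are circuits of polynomial size for all
   graphs. (The same with a gap: accept the cliques of `s n` vertices, reject the graphs without a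
   clique of `k n` vertices.)
2. For `W > ∏ l, (t l + 1) * polylog` the answer is negative, unconditionally, for every window
   between `k n` and `n ^ 2 / 25`, already for the probability `1 / 2 + 1 / w`: this is proved for all
   circuits of size `2 ^ w`, where `(w log n) ^ A ≤ k`, for which along each increasing chain of graphs
   at most `D` steps change the value of a NOT gate; then `W ≤ (D + 1) * ((g + 1) w log n) ^ A`. Here
   the circuit may accept or reject the graphs whose largest clique has between `k` and `k + g - 1`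
   vertices. By 6., `D + 1 ≤ ∏ l, (t l + 1)`, in particular `D + 1 ≤ 2 ^ t` for `t` NOT gates and
   `D + 1 ≤ (1 + t / h) ^ h` for `t` NOT gates in `h` nesting levels.
3. The upper bound behind 1.: every circuit can be rewritten for a window of at most
   `∏ l, (t l + 1)` numbers with the nesting structure `h`, `t`, with `2 * size + 16 (N + 2) ^ 3` gates.
4. From a circuit for all graphs one gets circuits with `t` NOT gates for windows of `(v + 1) 2 ^ t`
   numbers, of size `2 ^ 21 (N + 1) ^ (v + 14) (size + 1)`.
5. So circuits of polynomial size for all graphs need `∏ l, (t l + 1) ≥ n ^ 2 / polylog n`, for each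
   `k` between all powers of `log n` and `n / 25`: `log₂ N - O(log log N)` NOT gates in general,
   `N / polylog N` NOT gates if they are not nested (and `N` of them are enough by 1., if there are any
   circuits of polynomial size), and `N ^ (1 / h) / polylog N` with `h` nesting levels.
6. The relations between `Nested`, the number of NOT gates and the alternations.
-/

set_option autoImplicit false

namespace Pool.Agent.Results.MP_22d2c8_lc.CliqueWindows

open Filter Finset Pool.Agent.H540R2 Pool.Agent.W2helper86.KQ Pool.Agent.W2helper26.CN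
open Pool.Agent.W2helper22.CW
open Pool.Agent.W2helper22.CU (IsNot Alternates Nesting alternates_pow)

theorem result :
    -- 1. short windows: the same question, for all nesting structures
    (∀ (k s W h : ℕ → ℕ) (t : ℕ → ℕ → ℕ),
      (∀ n, 1 ≤ W n ∧ W n ≤ ∏ l ∈ range (h n), (t n l + 1)) →
      (PolyNested k s W h t ↔ PolyAll k s)) ∧
    -- 2. long windows: impossible
    (∃ A : ℕ, ∀ (n k g D w W m : ℕ), 2 ≤ n → 1 ≤ w →
      (w * (Nat.log 2 n + 1)) ^ A ≤ k → k * n ≤ m → 25 * m ≤ n ^ 2 → W ≤ n ^ 2 →
      ∀ R : RandCircuit (n.choose 2), (∀ o, Alternates (R.C o) D ∧ (R.C o).size ≤ 2 ^ w) →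
        (∀ x, m ≤ edges x → edges x < m + W → 1 / 2 + 1 / (w : ℝ) ≤ R.prob (Right (k + g) k x)) →
        W ≤ (D + 1) * ((g + 1) * w * (Nat.log 2 n + 1)) ^ A) ∧
    -- 3. windows of `∏ l, (t l + 1)` numbers
    (∀ (n : ℕ) (C : Circuit (n.choose 2)) (h : ℕ) (t : ℕ → ℕ) (m W : ℕ),
      W ≤ ∏ l ∈ range h, (t l + 1) →
      ∃ C' : Circuit (n.choose 2), Nested C' h t ∧
        C'.size ≤ 2 * C.size + 16 * (n.choose 2 + 2) ^ 3 ∧
        ∀ x, m ≤ edges x → edges x < m + W → C'.eval x = C.eval x) ∧
    -- 4. windows of `(v + 1) * 2 ^ t` numbers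
    (∀ (n k v t m : ℕ) (C : Circuit (n.choose 2)),
      (∀ x, C.eval x = true ↔ ¬ (graph x).CliqueFree k) →
      ∃ C' : Circuit (n.choose 2), C'.nots ≤ t ∧
        C'.size ≤ 2 ^ 21 * (n.choose 2 + 1) ^ (v + 14) * (C.size + 1) ∧
        ∀ x, m ≤ edges x → edges x < m + (v + 1) * 2 ^ t →
          (C'.eval x = true ↔ ¬ (graph x).CliqueFree k)) ∧
    -- 5. all graphs: `∏ l, (t l + 1) ≥ n ^ 2 / polylog n`
    (∀ (k h : ℕ → ℕ) (t : ℕ → ℕ → ℕ), (∀ B : ℕ, ∀ᶠ n : ℕ in atTop, (Nat.log 2 n) ^ B ≤ k n) →
      (∀ᶠ n : ℕ in atTop, 25 * k n ≤ n) → PolyNested k k (fun n => n.choose 2 + 1) h t →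
      ∃ B : ℕ, ∀ᶠ n : ℕ in atTop,
        n ^ 2 ≤ (∏ l ∈ range (h n), (t n l + 1)) * (Nat.log 2 n) ^ B) ∧
    -- 6. NOT gates, nesting levels and alternations
    (∀ (N : ℕ) (C : Circuit N), Alternates C (2 ^ C.nots - 1) ∧
      (∀ t : ℕ, C.nots ≤ t ↔ Nested C t (fun _ => 1)) ∧
      (∀ (h : ℕ) (t : ℕ → ℕ), Nested C h t → Alternates C (∏ l ∈ range h, (t l + 1) - 1)) ∧
      ∀ (h : ℕ) (lev : ℕ → ℕ), 1 ≤ h → Nesting C h lev →
        Alternates C (⌊(1 + (C.nots : ℝ) / h) ^ h⌋₊ - 1)) :=
  ⟨eqL, final_lowD, fun n C h t m W hW => upperN C h t m W hW,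
    fun n k v t m C hC => up n k v t m C hC, thrN,
    fun N C => ⟨alternates_pow C, nots_iff C, fun h t => alternates_of_nested,
      fun h lev hh hl => alternates_total C hh lev hl⟩⟩

end Pool.Agent.Results.MP_22d2c8_lc.CliqueWindows
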