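import Pool.Agent.W2helper86.MF.Sum
import Pool.Agent.W2helper86.MF.Upper

/-!
# Multiplication: wires against downward traffic

The explicit length-preserving function is `x ↦ x c mod 2 ^ n`, where `c = sparse n` is the number
with the binary digits `1` at the places `1, 2, 4, 8, …`; it is a restriction of the multiplication of
`n`-bit numbers. The gates of a circuit are put in columns in an arbitrary way, bit number `i` of
an operand and output number `i` being in column `i`; the traffic `T` is the total number of the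
values which are sent down over the `n` boundaries between columns.

* Every circuit which computes the `n` lowest bits of `x c` for at least `2 ^ (n - q)` of the `n`-bit
  numbers `x` has at least `(n / 8) (log₂ (n ^ 2 / (T + (q + 1) n)) - 16)` wires.
* Hence circuits with at most `d n` wires have `T + (q + 1) n ≥ n ^ 2 / 2 ^ (8 d + 16)`.
* There are circuits with `T = 0`, fan-in at most `3` and at most `6 n ⌈log₂ n⌉` wires.
-/

set_option autoImplicit false

open Finset

namespace Pool.Agent.Results.MP_22d2c8_lc.MultiplicationFlow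

open Pool.Agent.W2helper86.MF

theorem lower (n q : ℕ) (hn : 1 ≤ n) (G : Type) [Fintype G] (C : Circuit n G) (col : G → ℕ)
    (hq : 2 ^ n ≤ 2 ^ q * {x : ℕ | x < 2 ^ n ∧ C.Multiplies x (sparse n)}.ncard) :
    (n : ℝ) / 8 * (Real.logb 2 ((n : ℝ) ^ 2 / (C.traffic col + (q + 1) * n)) - 16) ≤ C.wires := by
  have hn' : (0 : ℝ) < n := by exact_mod_cast hn
  have hfin : {x : ℕ | x < 2 ^ n ∧ C.Multiplies x (sparse n)}.Finite :=
    (Set.finite_lt_nat (2 ^ n)).subset fun x hx => hx.1
  rw [Set.ncard_eq_toFinset_card _ hfin] at hq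
  have h1 := main_real C col q ((C.traffic col : ℝ) / n) (by positivity) hfin.toFinset
    (fun x hx => by simpa using hx) hq (by rw [div_mul_cancel₀ _ hn'.ne'])
  have h2 : (n : ℝ) / ((C.traffic col : ℝ) / n + q + 1) =
      (n : ℝ) ^ 2 / (C.traffic col + (q + 1) * n) := by
    rw [div_eq_div_iff (by positivity) (by positivity)]
    field_simp
    ring
  rwa [h2] at h1

theorem result :
    (∀ (n q : ℕ), 1 ≤ n → ∀ (G : Type) [Fintype G] (C : Circuit n G) (col : G → ℕ),
      2 ^ n ≤ 2 ^ q * {x : ℕ | x < 2 ^ n ∧ C.Multiplies x (sparse n)}.ncard →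
        (n : ℝ) / 8 * (Real.logb 2 ((n : ℝ) ^ 2 / (C.traffic col + (q + 1) * n)) - 16) ≤ C.wires ∧
        ∀ d : ℝ, (C.wires : ℝ) ≤ d * n →
          (n : ℝ) ^ 2 / 2 ^ (8 * d + 16) ≤ C.traffic col + (q + 1) * n) ∧
    ∀ n : ℕ, ∃ (G : Type) (_ : Fintype G) (C : Circuit n G) (col : G → ℕ),
      (∀ g, (C.preds g).card ≤ 3) ∧ C.wires ≤ 6 * n * Nat.clog 2 n ∧ C.traffic col = 0 ∧
        ∀ x, C.Multiplies x (sparse n) := by
  refine ⟨fun n q hn G _ C col hq => ?_, upper⟩
  have h1 := lower n q hn G C col hq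
  refine ⟨h1, fun d hd => ?_⟩
  have hn' : (0 : ℝ) < n := by exact_mod_cast hn
  have hpos : (0 : ℝ) < C.traffic col + (q + 1) * n := by positivity
  have h2 : Real.logb 2 ((n : ℝ) ^ 2 / (C.traffic col + (q + 1) * n)) ≤ 8 * d + 16 := by
    have h3 := h1.trans hd
    have h4 : (n : ℝ) / 8 * (Real.logb 2 ((n : ℝ) ^ 2 / (C.traffic col + (q + 1) * n)) - 16) ≤
        (n : ℝ) / 8 * (8 * d) := by linarith
    have h5 := le_of_mul_le_mul_left h4 (by positivity)
    linarith
  rw [Real.logb_le_iff_le_rpow (by norm_num) (by positivity), div_le_iff₀ hpos] at h2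
  rw [div_le_iff₀ (by positivity)]
  linarith

end Pool.Agent.Results.MP_22d2c8_lc.MultiplicationFlow
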