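import Mathlib
import Pool.Agent.W2helper22.AL.Fun
import Pool.Agent.W2helper22.AL.Levels
import Pool.Agent.W2helper22.AL.AmGm
import Pool.Agent.W2helper22.AL.Upper
import Pool.Agent.W2helper58.NT.Main
import Pool.Agent.W2helper17.NT.Npf

/-!
# Size against the number and the nesting of NOT gates, for one explicit Boolean function

`anyMatching n` is an explicit monotone Boolean function of `n` bits (it is decided in polynomial
time; that its language is in NP is part of the theorem): the input is cut into `log₂ n` regions of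
equal length, region `e` is cut into blocks of `4 ^ e` bits, every block is the adjacency matrix of a
bipartite graph with `2 ^ e + 2 ^ e` vertices, and the question is whether one of all these graphs has
a perfect matching.

We show: if a randomised circuit with two-sided bounded error computes `anyMatching n` with size at
most `2 ^ w` and at most `t` NOT gates, at most `h` of them on each path, then

  `c * n ≤ (1 + t / h) ^ h * (w * (log₂ w + 1)) ^ 16 * log₂ n`.

So in polynomial size NOT gates that are not nested (`h = 1`; they may stand anywhere) must be as many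
as `n / polylog n`, while `n` of them (at the inputs) always suffice; with nesting depth `h` one needs
`h * (n / polylog n) ^ (1 / h) - h` of them, which is `log₂ n - O (log log n)` without a restriction of
the nesting (`h = t`; there `⌈log₂ (n + 1)⌉` NOT gates always suffice, Markov and Fischer).

The reason is a bound for the number of alternations. Call `D` the largest number of steps of an
increasing chain of inputs at which the input of some NOT gate changes. Then

  `c * n ≤ (D + 1) * (w * (log₂ w + 1)) ^ 16 * log₂ n`,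

and with `t l` NOT gates of level `l`, for levels `l < h` such that a NOT gate uses only NOT gates of
lower level, `D + 1 ≤ ∏ l, (t l + 1)`.

Conversely, for every function: if `n + 1 ≤ ∏ l, (t l + 1)` then every Boolean circuit with `s` gates
is equivalent to one with at most `2 s + 8 (n + 2) ^ 3 + 8 (n + 2 + ∑ l, t l) (h + 1)` gates and with at
most `t l` NOT gates of level `l` for each of the `h` levels `l`. So for circuits of polynomial size the
bound `(1 + t / h) ^ h ≥ n / polylog n` is sharp up to the polylogarithmic factor, for all `h`.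

More generally the circuits may use, instead of AND and OR gates, arbitrary nondecreasing real
functions of two real values, and instead of NOT gates arbitrary test gates: such a gate `i` reads
`w i` real values and its result depends in an arbitrary way on the answers to `w i` threshold tests,
one for each of these values (`w i = 1` for NOT gates).

The proof. The block size `4 ^ e` is chosen according to the size `2 ^ w` of the circuit. One after the
other the graphs of region `e` get random edge sets without a perfect matching. Along this chain of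
inputs the tests change at most `D` times, so for most blocks they are constant while this block
changes. Then the circuit, together with an OR over the tests with answer no, is a monotone
program that separates random perfect matchings from random graphs without a perfect matching, for one
block. This is impossible on average by an approximation argument with a sunflower lemma for matchings
(`Pool.Agent.H560R2.approxM`, `Pool.Agent.W2helper58.match_avg`).
-/

set_option autoImplicit false

namespace Pool.Agent.Results.MP_22d2c8_lc.NegationNesting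

open Finset

/-- The first `log₂ n` intervals of `len = ⌊n / log₂ n⌋` input bits are the regions
`e = 0, 1, ..., log₂ n - 1`. Region `e` is cut into blocks of `(2 ^ e) ^ 2` bits (a rest is not used).
The bit number `u * 2 ^ e + v` of block `J` tells whether the left vertex `u` and the right vertex `v` of
the `J`-th bipartite graph of the region are joined. The function is `1` if one of all these graphs has
a perfect matching, that is, a permutation `σ` such that every `u` is joined to `σ u`. -/
def anyMatching (n : ℕ) (x : Fin n → Bool) : Prop :=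
  ∃ e : ℕ, e < Nat.log 2 n ∧ ∃ J : ℕ, (J + 1) * (2 ^ e) ^ 2 ≤ n / Nat.log 2 n ∧
    ∃ σ : Equiv.Perm (Fin (2 ^ e)), ∀ u : Fin (2 ^ e), ∀ p : Fin n,
      p.val = e * (n / Nat.log 2 n) + (J * (2 ^ e) ^ 2 + u.val * 2 ^ e + (σ u).val) → x p = true

/-- Circuits with `n` input bits and `s` gates. Gate `i` has the `w i` arguments `a i j`, each an
input bit (as the number `0` or `1`) or the result of an earlier gate, and computes the real function
`op i`; the results on the input `x` are `val x i`. The gates outside `T` are nondecreasing functions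
with at most two arguments. The result of a gate `i` in `T` depends in an arbitrary way on the
answers to the tests whether `θ i j` is at most the `j`-th argument. The circuit accepts if the
result of gate `out` is at least `τ`. -/
structure Circuit (n : ℕ) where
  s : ℕ
  T : Finset (Fin s)
  w : Fin s → ℕ
  a : (i : Fin s) → Fin (w i) → Fin n ⊕ Fin s
  op : (i : Fin s) → (Fin (w i) → ℝ) → ℝ
  θ : (i : Fin s) → Fin (w i) → ℝ
  val : (Fin n → Bool) → Fin s → ℝ
  out : Fin s
  τ : ℝ
  earlier : ∀ i j k, a i j = Sum.inr k → k < i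
  mono : ∀ i ∉ T, w i ≤ 2 ∧ Monotone (op i)
  test : ∀ i ∈ T, ∀ z z' : Fin (w i) → ℝ, (∀ j, θ i j ≤ z j ↔ θ i j ≤ z' j) → op i z = op i z'
  spec : ∀ x i, val x i =
    op i (fun j => Sum.elim (fun p => if x p = true then (1 : ℝ) else 0) (val x) (a i j))

/-- The circuit accepts the input `x`. -/
def Circuit.Accepts {n : ℕ} (C : Circuit n) (x : Fin n → Bool) : Prop := C.τ ≤ C.val x C.out

/-- The number of gates plus the total number of arguments of the test gates. -/
def Circuit.size {n : ℕ} (C : Circuit n) : ℕ := C.s + ∑ i ∈ C.T, C.w i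

/-- The value of the `j`-th argument of gate `i` on the input `x`. -/
noncomputable def Circuit.arg {n : ℕ} (C : Circuit n) (x : Fin n → Bool) (i : Fin C.s)
    (j : Fin (C.w i)) : ℝ :=
  Sum.elim (fun p => if x p = true then (1 : ℝ) else 0) (C.val x) (C.a i j)

/-- Some test of a gate in `T` has different answers on the inputs `x` and `y`. -/
def Circuit.Changes {n : ℕ} (C : Circuit n) (x y : Fin n → Bool) : Prop :=
  ∃ i ∈ C.T, ∃ j, ¬ (C.θ i j ≤ C.arg x i j ↔ C.θ i j ≤ C.arg y i j)

/-- Each increasing chain `x 0 ≤ x 1 ≤ ...` of inputs has at most `D` steps at which some test of a gate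
in `T` changes its answer. -/
def Circuit.Alternates {n : ℕ} (C : Circuit n) (D : ℕ) : Prop :=
  ∀ x : ℕ → Fin n → Bool, (∀ i p, x i p = true → x (i + 1) p = true) →
    ∀ J : Finset ℕ, (∀ i ∈ J, C.Changes (x i) (x (i + 1))) → J.card ≤ D

/-- The numbers `lev i` are nesting levels `< h` of the gates in `T`: the level does not decrease from
an argument to its gate, and it increases if the argument is the result of a gate in `T`. There are
such numbers if and only if no path of the circuit contains more than `h` gates of `T`. -/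
def Circuit.Levels {n : ℕ} (C : Circuit n) (h : ℕ) (lev : Fin C.s → ℕ) : Prop :=
  (∀ i j k, C.a i j = Sum.inr k → lev k ≤ lev i ∧ (k ∈ C.T → lev k < lev i)) ∧
    ∀ i ∈ C.T, lev i < h

/-- Order of inputs. -/
lemma le_of_imp {n : ℕ} {x y : Fin n → Bool} (h : ∀ p, x p = true → y p = true) : x ≤ y := by
  intro p
  have := h p
  cases hx : x p
  · exact Bool.false_le _
  · rw [this hx]

/-- Nesting levels bound the number of alternations. -/
lemma alternates_of_levels {n : ℕ} (C : Circuit n) (h : ℕ) (lev : Fin C.s → ℕ) (t : ℕ → ℕ)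
    (hl : C.Levels h lev) (ht : ∀ l < h, ∑ i ∈ C.T.filter (fun i => lev i = l), C.w i ≤ t l) :
    C.Alternates (∏ l ∈ range h, (t l + 1) - 1) := by
  intro x hx J hJ
  have h1 := Pool.Agent.W2helper22.AL.changes_levels (T := C.T) (w := C.w) (a := C.a) (op := C.op)
    (θ := C.θ) (val := C.val) (lev := lev) C.earlier C.mono C.test C.spec hl.1 hl.2 x
    (fun i => le_of_imp (hx i)) J hJ
  have h2 : ∏ l ∈ range h, (Pool.Agent.W2helper22.AL.tot C.T C.w lev l + 1) ≤
      ∏ l ∈ range h, (t l + 1) :=
    Finset.prod_le_prod' fun l hl' => Nat.succ_le_succ (ht l (Finset.mem_range.mp hl'))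
  omega

/-- The product of the numbers `w i + 1` bounds the number of alternations. -/
lemma alternates_tests {n : ℕ} (C : Circuit n) : C.Alternates (∏ i ∈ C.T, (C.w i + 1) - 1) := by
  intro x hx J hJ
  have h1 := Pool.Agent.W2helper22.AL.changes_tests (T := C.T) (w := C.w) (a := C.a) (op := C.op)
    (θ := C.θ) (val := C.val) C.earlier C.mono C.test C.spec x (fun i => le_of_imp (hx i)) J hJ
  omega

/-- Levels and the total number of tests. -/
lemma alternates_total {n : ℕ} (C : Circuit n) {h t : ℕ} (hh : 1 ≤ h) (lev : Fin C.s → ℕ)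
    (hl : C.Levels h lev) (ht : ∑ i ∈ C.T, C.w i ≤ t) :
    C.Alternates (⌊(1 + (t : ℝ) / h) ^ h⌋₊ - 1) := by
  have h1 := alternates_of_levels C h lev (Pool.Agent.W2helper22.AL.tot C.T C.w lev) hl
    (fun l _ => le_rfl)
  have h2 : ∑ l ∈ range h, Pool.Agent.W2helper22.AL.tot C.T C.w lev l ≤ t := by
    refine le_trans (le_of_eq ?_) ht
    unfold Pool.Agent.W2helper22.AL.tot
    exact Finset.sum_fiberwise_of_maps_to (fun i hi => Finset.mem_range.mpr (hl.2 i hi)) _
  have h3 := Pool.Agent.W2helper22.AL.amgm_nat h hh _ t h2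
  have h4 : ∏ l ∈ range h, (Pool.Agent.W2helper22.AL.tot C.T C.w lev l + 1) ≤
      ⌊(1 + (t : ℝ) / h) ^ h⌋₊ := Nat.le_floor h3
  intro x hx J hJ
  have h5 := h1 x hx J hJ
  omega

open Classical in
/-- `anyMatching n` is monotone, the language of all inputs where it is `1` is in NP (`InNP`: bit
strings, certificates of polynomial length, verified by a Turing machine of Mathlib in polynomial time),
and:
(A) for every `δ > 0` there is `c > 0` such that for all `n ≥ 2`, `w ≥ 1`, `h ≥ 1` and `t`: if a random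
circuit (finitely many circuits `C r` with probabilities `μ r`) of size at most `2 ^ w`, with at most
`t` tests (NOT gates) and at most `h` nesting levels of the gates in `T` is right on every input with
probability at least `1 / 2 + δ`, then
`c * n ≤ (1 + t / h) ^ h * (w * (log₂ w + 1)) ^ 16 * log₂ n`;
(B) the same with the number of alternations: if every `C r` has at most `D` of them, then
`c * n ≤ (D + 1) * (w * (log₂ w + 1)) ^ 16 * log₂ n`;
(C) for all `n ≥ 2` and `w ≥ 1` there are a distribution `yes` of inputs where `anyMatching n` is `1`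
and a distribution `no` of inputs where it is `0` (both uniform over a finite index set) such that every
circuit of size at most `2 ^ w` with at most `D` alternations, for any `D`, tells them apart with
advantage at most `A * (D + 1) * (w * (log₂ w + 1)) ^ 16 * log₂ n / n + 1 / w`, `A = (2 ^ 140) ^ 2`;
(D) a circuit with nesting levels `l < h` and at most `t l` tests of level `l` has at most
`∏ l, (t l + 1) - 1` alternations, and every circuit has at most `∏ i ∈ T, (w i + 1) - 1`;
(E) if `n + 1 ≤ ∏ l, (t l + 1)`, `l < h`, then each Boolean circuit with `n` inputs (gates `inp`, `const`,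
`not`, `and`, `or`; `s` of them) is equivalent to a Boolean circuit with at most
`2 s + 8 (n + 2) ^ 3 + 8 (n + 2 + ∑ l, t l) (h + 1)` gates which has nesting levels `≤ h` and at most
`t l` NOT gates of level `l + 1` for each `l < h`. -/
theorem result :
    (∀ (n : ℕ) (x y : Fin n → Bool), (∀ p, x p = true → y p = true) → anyMatching n x →
      anyMatching n y) ∧
    Pool.Agent.NPC.InNP {x : List Bool | anyMatching x.length (fun p => x.get p)} ∧
    (∀ δ : ℝ, 0 < δ → ∃ c : ℝ, 0 < c ∧ ∀ n w h t : ℕ, 2 ≤ n → 1 ≤ w → 1 ≤ h →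
      ∀ (R : Type) (_ : Fintype R) (μ : R → ℝ) (C : R → Circuit n), (∀ r, 0 ≤ μ r) →
        ∑ r, μ r = 1 → (∀ r, (C r).size ≤ 2 ^ w) → (∀ r, ∑ i ∈ (C r).T, (C r).w i ≤ t) →
        (∀ r, ∃ lev, (C r).Levels h lev) →
        (∀ x : Fin n → Bool,
          1 / 2 + δ ≤ ∑ r ∈ univ.filter (fun r => (C r).Accepts x ↔ anyMatching n x), μ r) →
        c * n ≤ (1 + (t : ℝ) / h) ^ h * ((w : ℝ) * (Nat.log 2 w + 1)) ^ 16 * Nat.log 2 n) ∧
    (∀ δ : ℝ, 0 < δ → ∃ c : ℝ, 0 < c ∧ ∀ n w D : ℕ, 2 ≤ n → 1 ≤ w →
      ∀ (R : Type) (_ : Fintype R) (μ : R → ℝ) (C : R → Circuit n), (∀ r, 0 ≤ μ r) →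
        ∑ r, μ r = 1 → (∀ r, (C r).size ≤ 2 ^ w) → (∀ r, (C r).Alternates D) →
        (∀ x : Fin n → Bool,
          1 / 2 + δ ≤ ∑ r ∈ univ.filter (fun r => (C r).Accepts x ↔ anyMatching n x), μ r) →
        c * n ≤ (D + 1) * ((w : ℝ) * (Nat.log 2 w + 1)) ^ 16 * Nat.log 2 n) ∧
    (∀ n w : ℕ, 2 ≤ n → 1 ≤ w →
      ∃ (Λ : Type) (_ : Fintype Λ) (_ : Nonempty Λ) (yes no : Λ → (Fin n → Bool)),
        (∀ l, anyMatching n (yes l)) ∧ (∀ l, ¬ anyMatching n (no l)) ∧
        ∀ (C : Circuit n) (D : ℕ), C.size ≤ 2 ^ w → C.Alternates D →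
          ((univ.filter (fun l : Λ => C.Accepts (yes l))).card : ℝ) / Fintype.card Λ ≤
            ((univ.filter (fun l : Λ => C.Accepts (no l))).card : ℝ) / Fintype.card Λ +
              (((2 : ℝ) ^ 140) ^ 2 * ((D + 1 : ℕ) : ℝ) * ((w : ℝ) * (Nat.log 2 w + 1)) ^ 16 *
                Nat.log 2 n / n + 1 / w)) ∧
    (∀ (n : ℕ) (C : Circuit n) (h : ℕ) (lev : Fin C.s → ℕ) (t : ℕ → ℕ), C.Levels h lev →
      (∀ l < h, ∑ i ∈ C.T.filter (fun i => lev i = l), C.w i ≤ t l) →
        C.Alternates (∏ l ∈ range h, (t l + 1) - 1)) ∧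
    (∀ (n : ℕ) (C : Circuit n), C.Alternates (∏ i ∈ C.T, (C.w i + 1) - 1)) ∧
    ∀ (n : ℕ) (C : Pool.Agent.W2helper76.RW.Circuit (Fin n)) (h : ℕ) (t : ℕ → ℕ),
      n + 1 ≤ ∏ l ∈ range h, (t l + 1) →
      ∃ (C' : Pool.Agent.W2helper76.RW.Circuit (Fin n)) (lev : Fin C'.s → ℕ),
        (∀ x, C'.eval x = C.eval x) ∧
        C'.s ≤ 2 * C.s + 8 * (n + 2) ^ 3 + 8 * (n + 2 + ∑ l ∈ range h, t l) * (h + 1) ∧
        Pool.Agent.W2helper22.AL.Nesting C' h lev ∧
        ∀ l < h, (univ.filter (fun i => C'.IsNot i ∧ lev i = l + 1)).card ≤ t l := by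
  have hA : ∀ n w : ℕ, 2 ≤ n → 1 ≤ w →
      ∃ (Λ : Type) (_ : Fintype Λ) (_ : Nonempty Λ) (yes no : Λ → (Fin n → Bool)),
        (∀ l, anyMatching n (yes l)) ∧ (∀ l, ¬ anyMatching n (no l)) ∧
        ∀ (C : Circuit n) (D : ℕ), C.size ≤ 2 ^ w → C.Alternates D →
          ((univ.filter (fun l : Λ => C.Accepts (yes l))).card : ℝ) / Fintype.card Λ ≤
            ((univ.filter (fun l : Λ => C.Accepts (no l))).card : ℝ) / Fintype.card Λ +
              (((2 : ℝ) ^ 140) ^ 2 * ((D + 1 : ℕ) : ℝ) * ((w : ℝ) * (Nat.log 2 w + 1)) ^ 16 *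
                Nat.log 2 n / n + 1 / w) := by
    intro n w hn hw
    obtain ⟨Λ, hΛ, hΛne, yes, no, hyes, hno, hadv⟩ :=
      Pool.Agent.W2helper22.AL.any_hard_allD n w hn hw
    refine ⟨Λ, hΛ, hΛne, yes, no, hyes, hno, fun C D hC hD => ?_⟩
    exact hadv C.s C.T C.w C.a C.op C.θ C.val C.out C.τ C.earlier C.mono C.test C.spec hC D
      (fun x hx J hJ => hD x (fun i p hp => by
        have h1 := hx i p
        rw [hp] at h1
        exact Bool.eq_true_of_true_le h1) J hJ)
  have hB : ∀ δ : ℝ, 0 < δ → ∃ c : ℝ, 0 < c ∧ ∀ n w D : ℕ, 2 ≤ n → 1 ≤ w →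
      ∀ (R : Type) (_ : Fintype R) (μ : R → ℝ) (C : R → Circuit n), (∀ r, 0 ≤ μ r) →
        ∑ r, μ r = 1 → (∀ r, (C r).size ≤ 2 ^ w) → (∀ r, (C r).Alternates D) →
        (∀ x : Fin n → Bool,
          1 / 2 + δ ≤ ∑ r ∈ univ.filter (fun r => (C r).Accepts x ↔ anyMatching n x), μ r) →
        c * n ≤ (D + 1) * ((w : ℝ) * (Nat.log 2 w + 1)) ^ 16 * Nat.log 2 n := by
    intro δ hδ
    obtain ⟨E, hE⟩ := exists_nat_ge (1 / δ)
    have hE0 : (0 : ℝ) < E := lt_of_lt_of_le (by positivity) hE
    have hE1 : 1 ≤ E := by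
      have : 0 < E := by exact_mod_cast hE0
      omega
    obtain ⟨K, hK⟩ : ∃ K : ℝ, K = ((2 : ℝ) ^ 140) ^ 2 * ((E : ℝ) * (Nat.log 2 E + 2)) ^ 16 :=
      ⟨_, rfl⟩
    have hK0 : 0 < K := by rw [hK]; positivity
    refine ⟨δ / K, by positivity, ?_⟩
    intro n w D hn hw R hR μ C hμ hμ1 hsize halt hcorr
    have hwE : 1 ≤ w * E := Nat.mul_pos hw hE1
    obtain ⟨Λ, hΛ, hΛne, yes, no, hyes, hno, hadv⟩ := hA n (w * E) hn hwE
    have hL0 : (0 : ℝ) < Fintype.card Λ := by exact_mod_cast Fintype.card_pos
    have hn0 : (0 : ℝ) < n := by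
      have : 0 < n := by omega
      exact_mod_cast this
    -- the bound for all circuits
    obtain ⟨B, hB⟩ : ∃ B : ℝ, B = ((2 : ℝ) ^ 140) ^ 2 * ((D + 1 : ℕ) : ℝ) *
        (((w * E : ℕ) : ℝ) * (Nat.log 2 (w * E) + 1)) ^ 16 * Nat.log 2 n / n + 1 / ((w * E : ℕ) : ℝ) :=
      ⟨_, rfl⟩
    have hadv' : ∀ r, ((univ.filter (fun l : Λ => (C r).Accepts (yes l))).card : ℝ) ≤
        ((univ.filter (fun l : Λ => (C r).Accepts (no l))).card : ℝ) + B * Fintype.card Λ := by
      intro r
      have h1 := hadv (C r) D ((hsize r).trans (Nat.pow_le_pow_right (by norm_num)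
        (Nat.le_mul_of_pos_right _ hE1))) (halt r)
      have h2 : ((2 : ℝ) ^ 140) ^ 2 * ((D + 1 : ℕ) : ℝ) *
          (((w * E : ℕ) : ℝ) * (Nat.log 2 (w * E) + 1)) ^ 16 * Nat.log 2 n / n +
            1 / ((w * E : ℕ) : ℝ) ≤ B := by
        rw [hB]
      have h4 := h1.trans (add_le_add le_rfl h2)
      rw [div_add' _ _ _ hL0.ne', div_le_div_iff_of_pos_right hL0] at h4
      exact h4
    -- averaging
    have e1 : ∀ D' : Λ → (Fin n → Bool), (Fintype.card Λ : ℝ) * (1 / 2 + δ) ≤
        ∑ l : Λ, ∑ r, (if ((C r).Accepts (D' l) ↔ anyMatching n (D' l)) then μ r else 0) := by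
      intro D'
      calc (Fintype.card Λ : ℝ) * (1 / 2 + δ) = ∑ _l : Λ, (1 / 2 + δ) := by
            rw [Finset.sum_const, Finset.card_univ, nsmul_eq_mul]
        _ ≤ _ := by
            refine Finset.sum_le_sum fun l _ => ?_
            have h1 := hcorr (D' l)
            rw [Finset.sum_filter] at h1
            exact h1
    have e2 : ∑ l : Λ, ∑ r, (if ((C r).Accepts (yes l) ↔ anyMatching n (yes l)) then μ r else 0) =
        ∑ r, μ r * ((univ.filter (fun l : Λ => (C r).Accepts (yes l))).card : ℝ) := by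
      rw [Finset.sum_comm]
      refine Finset.sum_congr rfl fun r _ => ?_
      rw [Finset.card_filter]
      push_cast
      rw [Finset.mul_sum]
      refine Finset.sum_congr rfl fun l _ => ?_
      by_cases hacc : (C r).Accepts (yes l)
      · simp [hyes l, hacc]
      · simp [hyes l, hacc]
    have e3 : ∑ l : Λ, ∑ r, (if ((C r).Accepts (no l) ↔ anyMatching n (no l)) then μ r else 0) =
        Fintype.card Λ - ∑ r, μ r * ((univ.filter (fun l : Λ => (C r).Accepts (no l))).card : ℝ) := by
      have h0 : (Fintype.card Λ : ℝ) = ∑ r, μ r * (Fintype.card Λ : ℝ) := by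
        rw [← Finset.sum_mul, hμ1, one_mul]
      rw [Finset.sum_comm, h0, ← Finset.sum_sub_distrib]
      refine Finset.sum_congr rfl fun r _ => ?_
      rw [Finset.card_filter]
      push_cast
      rw [← mul_sub]
      have h1 : (Fintype.card Λ : ℝ) = ∑ _l : Λ, (1 : ℝ) := by
        rw [Finset.sum_const, Finset.card_univ, nsmul_eq_mul, mul_one]
      rw [h1, ← Finset.sum_sub_distrib, Finset.mul_sum]
      refine Finset.sum_congr rfl fun l _ => ?_
      by_cases hacc : (C r).Accepts (no l)
      · simp [hno l, hacc]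
      · simp [hno l, hacc]
    have h5 := e1 yes
    have h6 := e1 no
    rw [e2] at h5
    rw [e3] at h6
    have h7 : ∑ r, μ r * ((univ.filter (fun l : Λ => (C r).Accepts (yes l))).card : ℝ) ≤
        ∑ r, μ r * ((univ.filter (fun l : Λ => (C r).Accepts (no l))).card : ℝ) +
          B * Fintype.card Λ := by
      calc _ ≤ ∑ r, μ r * (((univ.filter (fun l : Λ => (C r).Accepts (no l))).card : ℝ) +
            B * Fintype.card Λ) :=
            Finset.sum_le_sum fun r _ => mul_le_mul_of_nonneg_left (hadv' r) (hμ r)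
        _ = _ := by
            simp only [mul_add, Finset.sum_add_distrib]
            rw [← Finset.sum_mul, hμ1, one_mul]
    have h8 : 2 * δ * Fintype.card Λ ≤ B * Fintype.card Λ := by linarith
    have h9 : 2 * δ ≤ B := le_of_mul_le_mul_right h8 hL0
    -- the numbers
    have h10 : 1 / ((w * E : ℕ) : ℝ) ≤ δ := by
      have h11 : (E : ℝ) ≤ ((w * E : ℕ) : ℝ) := by
        exact_mod_cast Nat.le_mul_of_pos_left E hw
      calc 1 / ((w * E : ℕ) : ℝ) ≤ 1 / E := one_div_le_one_div_of_le hE0 h11
        _ ≤ δ := by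
            rw [div_le_iff₀ hE0]
            rw [div_le_iff₀ hδ] at hE
            linarith
    have h12 : (((w * E : ℕ) : ℝ) * (Nat.log 2 (w * E) + 1)) ^ 16 ≤
        ((w : ℝ) * (Nat.log 2 w + 1)) ^ 16 * ((E : ℝ) * (Nat.log 2 E + 2)) ^ 16 := by
      have := Pool.Agent.W2helper58.NT.scale w E
      exact_mod_cast this
    have h13 : δ ≤ K * ((D + 1 : ℕ) * ((w : ℝ) * (Nat.log 2 w + 1)) ^ 16 * Nat.log 2 n) / n := by
      have h14 : δ ≤ ((2 : ℝ) ^ 140) ^ 2 * ((D + 1 : ℕ) : ℝ) *
          (((w * E : ℕ) : ℝ) * (Nat.log 2 (w * E) + 1)) ^ 16 * Nat.log 2 n / n := by linarith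
      refine h14.trans ?_
      rw [hK]
      calc _ ≤ ((2 : ℝ) ^ 140) ^ 2 * ((D + 1 : ℕ) : ℝ) * (((w : ℝ) * (Nat.log 2 w + 1)) ^ 16 *
            ((E : ℝ) * (Nat.log 2 E + 2)) ^ 16) * Nat.log 2 n / n := by gcongr
        _ = _ := by ring
    push_cast at h13
    rw [le_div_iff₀ hn0] at h13
    rw [div_mul_eq_mul_div, div_le_iff₀ hK0]
    linarith
  refine ⟨fun n x y hxy h => Pool.Agent.W2helper58.NT.anyMatching_mono hxy h,
    Pool.Agent.W2helper17.NT.p_NPF, ?_, hB, hA, fun n => alternates_of_levels, fun n => alternates_tests,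
    fun n C h t hN => by
      simpa only [Fintype.card_fin] using
        Pool.Agent.W2helper22.AL.upper C h t (by simpa only [Fintype.card_fin] using hN)⟩
  intro δ hδ
  obtain ⟨c, hc, hcB⟩ := hB δ hδ
  refine ⟨c, hc, ?_⟩
  intro n w h t hn hw hh R hR μ C hμ hμ1 hsize htests hlev hcorr
  have h1 : ∀ r, (C r).Alternates (⌊(1 + (t : ℝ) / h) ^ h⌋₊ - 1) := by
    intro r
    obtain ⟨lev, hl⟩ := hlev r
    exact alternates_total (C r) hh lev hl (htests r)
  have h2 := hcB n w (⌊(1 + (t : ℝ) / h) ^ h⌋₊ - 1) hn hw R hR μ C hμ hμ1 hsize h1 hcorr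
  have h3 : (1 : ℝ) ≤ (1 + (t : ℝ) / h) ^ h := one_le_pow₀ (by
    have : (0 : ℝ) ≤ (t : ℝ) / h := by positivity
    linarith)
  have h4 : 1 ≤ ⌊(1 + (t : ℝ) / h) ^ h⌋₊ := Nat.le_floor (by simpa using h3)
  have h5 : (((⌊(1 + (t : ℝ) / h) ^ h⌋₊ - 1 : ℕ) : ℝ) + 1) ≤ (1 + (t : ℝ) / h) ^ h := by
    have h6 : (((⌊(1 + (t : ℝ) / h) ^ h⌋₊ - 1 : ℕ) : ℝ) + 1) = ((⌊(1 + (t : ℝ) / h) ^ h⌋₊ : ℕ) : ℝ) := by
      rw [Nat.cast_sub h4]
      push_cast
      ring
    rw [h6]
    exact Nat.floor_le (by positivity)
  refine h2.trans ?_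
  gcongr

end Pool.Agent.Results.MP_22d2c8_lc.NegationNesting
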