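import Pool.Agent.W2helper94.SH.Tw

/-!
# MP_22d2c8_lc: circuits for a one-bit function that can be shattered

The explicit function `wordsFn n` of `n` bits (one output bit): the bits are read as a sequence of
`⌊n / 2⌋` symbols of two bits; a symbol is a letter (with a value), a separator or a blank; the separators
cut the sequence into words, and the value is the parity of the number of the `i` such that the letter
number `i` of every word exists and has the value `true`.

The circuits (`Net`) may have arbitrary gates of arbitrary fan-in, and they may be nondeterministic: the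
gates of the set `G` may have arbitrary values (`Accepts`).  The number of the wires from inputs
is counted, so the inputs themselves may be shared freely.
-/

set_option autoImplicit false

namespace Pool.Agent.Results.MP_22d2c8_lc.ShatteringSingleOutput

open Finset Pool.Agent.Y631.Tr Pool.Agent.W2helper94.SH

/-- Let `C` be a nondeterministic circuit that computes the one-bit function `wordsFn n` (`b = true`) or its
negation (`b = false`), and let `s ≥ 1`.

* If the deletion of a set `Z` of gates shatters `C` into parts with at most `w` wires from inputs each, and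
  the gates `g` of `Z` have additive complexity at most `lam g`, and
  `2 ^ (20 s) (w + ∑_{g ∈ Z} (1 + lam g) + 1) ≤ n / 2`, then more than `s ^ 2 (n / 2)` wires go from
  inputs to gates outside of `Z`.
* If all gates have additive complexity at most `l` and the treewidth is at most `t` and
  `2 ^ (42 s) (l + 1) (t + 1) ≤ n / 2`, then more than `s ^ 2 (n / 2)` wires go from inputs to gates.
* In particular, if the fan-in is two and `2 ^ (44 s) (t + 1) ≤ n / 2`, then `C` has more than
  `s ^ 2 (n / 2) / 2` gates.
* A gate of fan-in at most `l`, and a symmetric gate of fan-in less than `2 ^ l`, has additive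
  complexity at most `l`. -/
theorem result :
    (∀ (n s : ℕ) (C : Net (Fin n) Unit Bool) (G : Finset (Fin C.size)) (b : Bool), 1 ≤ s →
      (∀ x, Accepts C G x ↔ wordsFn n x = b) →
      (∀ (Z : Finset (Fin C.size)) (w : ℕ) (lam : Fin C.size → ℕ), Shatters C Z w →
        (∀ g ∈ Z, AddLE (lam g) (C.op g)) →
        2 ^ (20 * s) * (w + ∑ g ∈ Z, (1 + lam g) + 1) ≤ n / 2 →
        s ^ 2 * (n / 2) < ∑ g with g ∉ Z, C.readsAt g) ∧
      (∀ t l : ℕ, C.TreewidthLE t → (∀ g, AddLE l (C.op g)) →
        2 ^ (42 * s) * ((l + 1) * (t + 1)) ≤ n / 2 → s ^ 2 * (n / 2) < C.reads) ∧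
      (∀ t : ℕ, C.TreewidthLE t → (∀ g, C.arity g ≤ 2) →
        2 ^ (44 * s) * (t + 1) ≤ n / 2 → s ^ 2 * (n / 2) < 2 * C.size)) ∧
    (∀ (a l : ℕ) (F : (Fin a → Bool) → Bool),
      (a ≤ l ∨ (a < 2 ^ l ∧ ∀ u v : Fin a → Bool, (univ.filter (fun i => u i = true)).card =
        (univ.filter (fun i => v i = true)).card → F u = F v)) → AddLE l F) := by
  refine ⟨fun n s C G b hs hC => ⟨?_, ?_, ?_⟩, fun a l F h => addLE_of F h⟩
  · intro Z w lam hZ hadd hn
    exact main1_final hs C G Z lam hadd b hC hZ hn
  · intro t l ht hl hn
    exact main2_final hs C hl G b hC ht hn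
  · intro t ht h2 hn
    have h3 : s ^ 2 * (n / 2) < C.reads := by
      refine main2_final hs C (l := 2) (fun g => addLE_of _ (Or.inl (h2 g))) G b hC ht (le_trans ?_ hn)
      calc 2 ^ (42 * s) * ((2 + 1) * (t + 1)) ≤ 2 ^ (42 * s) * (2 ^ (2 * s) * (t + 1)) := by
            have h4 : 2 + 1 ≤ 2 ^ (2 * s) := by
              calc 2 + 1 ≤ 2 ^ 2 := by norm_num
                _ ≤ 2 ^ (2 * s) := Nat.pow_le_pow_right (by norm_num) (by omega)
            gcongr
        _ = 2 ^ (44 * s) * (t + 1) := by
            rw [← mul_assoc, ← pow_add]
            congr 2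
            ring
    refine lt_of_lt_of_le h3 ?_
    unfold Net.reads
    calc ∑ g, C.readsAt g ≤ ∑ _g : Fin C.size, 2 := by
          refine Finset.sum_le_sum fun g _ => ?_
          unfold Net.readsAt
          refine (Finset.card_filter_le _ _).trans ?_
          rw [Finset.card_univ, Fintype.card_fin]
          exact h2 g
      _ = 2 * C.size := by simp [mul_comm]

end Pool.Agent.Results.MP_22d2c8_lc.ShatteringSingleOutput
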